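import Pool.Agent.Lib.MP_9ca56c_nt.Sub

/-!
# Counting compression indices
-/

namespace Pool.Agent.Lib.MP_9ca56c_nt

variable {a : ℕ → ℕ}

/-- If the infimum of `a n / n` is attained at `k` and not before, then `k = 1` or `k` is a compression index. -/
theorem least_attained {k : ℕ} (hk : 1 ≤ k) (hatt : ∀ n, 1 ≤ n → n * a k ≤ k * a n)
    (hmin : ∀ j, 1 ≤ j → j < k → ¬ ∀ n, 1 ≤ n → n * a j ≤ j * a n) : k = 1 ∨ Irr a k := by
  by_cases h1 : k = 1
  · exact Or.inl h1
  refine Or.inr ⟨by omega, fun l hl hs => ?_⟩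
  have hstrict : ∀ g ∈ l, g * a k < k * a g := by
    intro g hg
    obtain ⟨hg0, hgk⟩ := hl g hg
    have h2 := hmin g hg0 hgk
    push Not at h2
    obtain ⟨n, hn, h3⟩ := h2
    have h4 := hatt n hn
    have h5 : n * (g * a k) < n * (k * a g) := by
      calc n * (g * a k) = g * (n * a k) := by ring
        _ ≤ g * (k * a n) := Nat.mul_le_mul_left _ h4
        _ = k * (g * a n) := by ring
        _ < k * (n * a g) := Nat.mul_lt_mul_of_pos_left h3 (by omega)
        _ = n * (k * a g) := by ring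
    exact Nat.lt_of_mul_lt_mul_left h5
  have key : ∀ t : List ℕ, (∀ g ∈ t, g * a k < k * a g) → t ≠ [] → t.sum * a k < k * (t.map a).sum := by
    intro t
    induction t with
    | nil => intro _ h0; exact absurd rfl h0
    | cons x t iht =>
      intro ht _
      have h2 := ht x (by simp)
      rw [List.sum_cons, List.map_cons, List.sum_cons]
      rcases t with _ | ⟨y, t'⟩
      · simpa using h2
      · have h3 := iht (fun g hg => ht g (by simp [hg])) (by simp)
        nlinarith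
  have hne : l ≠ [] := by
    rintro rfl
    simp at hs
    omega
  have h6 := key l hstrict hne
  rw [hs] at h6
  exact Nat.lt_of_mul_lt_mul_left h6

/-- Unconditional count. -/
theorem count_one (h : ∀ i j, 1 ≤ i → 1 ≤ j → a (i + j) ≤ a i + a j) :
    ∀ N, 1 ≤ N → ({n | Irr a n} ∩ Set.Iic N).ncard + a N ≤ N * a 1 := by
  intro N hN
  induction N, hN using Nat.le_induction with
  | base =>
    have h0 : {n | Irr a n} ∩ Set.Iic 1 = ∅ := by
      ext n
      simp only [Set.mem_inter_iff, Set.mem_ofPred_eq, Set.mem_Iic, Set.mem_empty_iff_false, iff_false, not_and]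
      intro hI hle
      have := hI.1
      omega
    rw [h0, Set.ncard_empty]
    omega
  | succ N hN ih =>
    by_cases hI : Irr a (N + 1)
    · have h1 : {n | Irr a n} ∩ Set.Iic (N + 1) ⊆ insert (N + 1) ({n | Irr a n} ∩ Set.Iic N) := by
        rintro n ⟨hn, hle⟩
        rw [Set.mem_Iic] at hle
        rcases Nat.lt_or_ge N n with h2 | h2
        · exact Or.inl (by omega)
        · exact Or.inr ⟨hn, h2⟩
      have hfin : ({n | Irr a n} ∩ Set.Iic N).Finite := (Set.finite_Iic N).subset Set.inter_subset_right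
      have h3 := (Set.ncard_le_ncard h1 (hfin.insert _)).trans (Set.ncard_insert_le _ _)
      have h4 := irr_lt (a := a) (le_refl 1) hN hI
      rw [Nat.succ_mul]
      omega
    · have h1 : {n | Irr a n} ∩ Set.Iic (N + 1) ⊆ {n | Irr a n} ∩ Set.Iic N := by
        rintro n ⟨hn, hle⟩
        rw [Set.mem_Iic] at hle
        refine ⟨hn, ?_⟩
        rw [Set.mem_Iic]
        by_contra h2
        have h3 : n = N + 1 := by omega
        rw [h3] at hn
        exact hI hn
      have hfin : ({n | Irr a n} ∩ Set.Iic N).Finite := (Set.finite_Iic N).subset Set.inter_subset_right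
      have h3 := Set.ncard_le_ncard h1 hfin
      have h4 := h N 1 hN le_rfl
      rw [Nat.succ_mul]
      omega

/-- Number of drops in one residue class, unconditionally. -/
theorem class_count (h : ∀ i j, 1 ≤ i → 1 ≤ j → a (i + j) ≤ a i + a j) {k : ℕ} (hk : 1 ≤ k) {r : ℕ} (hr : 1 ≤ r)
    (T : ℕ) :
    ((Finset.range T).filter fun t => a ((r + t * k) + k) < a (r + t * k) + a k).card + a (r + T * k) ≤
      a r + T * a k := by
  induction T with
  | zero => simp
  | succ T ih =>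
    have e1 : r + (T + 1) * k = (r + T * k) + k := by ring
    have h1 := h (r + T * k) k (by omega) hk
    rw [Finset.range_add_one, Finset.filter_insert, e1, Nat.succ_mul]
    by_cases hI : a ((r + T * k) + k) < a (r + T * k) + a k
    · rw [if_pos hI, Finset.card_insert_of_notMem (by simp)]
      omega
    · rw [if_neg hI]
      omega

/-- Unconditional count with a general `k`. -/
theorem count_gen (h : ∀ i j, 1 ≤ i → 1 ≤ j → a (i + j) ≤ a i + a j) {k : ℕ} (hk : 1 ≤ k) (T : ℕ) :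
    {n | Irr a n ∧ k < n ∧ n ≤ (T + 1) * k}.ncard + ∑ r ∈ Finset.Icc 1 k, a (r + T * k) ≤
      ∑ r ∈ Finset.Icc 1 k, (a r + T * a k) := by
  classical
  have hsub : {n | Irr a n ∧ k < n ∧ n ≤ (T + 1) * k} ⊆ (((Finset.Icc 1 k).biUnion fun r =>
      (((Finset.range T).filter fun t => a ((r + t * k) + k) < a (r + t * k) + a k).image fun t =>
        (r + t * k) + k : Finset ℕ) : Finset ℕ) : Set ℕ) := by
    rintro n ⟨hI, hkn, hle⟩
    have h1 : (n - 1) % k < k := Nat.mod_lt _ (by omega)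
    have h2 := Nat.div_add_mod (n - 1) k
    obtain ⟨q, hq⟩ : ∃ q, (n - 1) / k = q := ⟨_, rfl⟩
    rw [hq] at h2
    have hq1 : 1 ≤ q := by
      rw [← hq]
      exact (Nat.le_div_iff_mul_le (by omega)).2 (by omega)
    have hqT : q ≤ T := by
      have h3 : (n - 1) / k < T + 1 := (Nat.div_lt_iff_lt_mul (by omega)).2 (by omega)
      omega
    obtain ⟨s, rfl⟩ : ∃ s, q = s + 1 := ⟨q - 1, by omega⟩
    have h3 : n = (((n - 1) % k + 1) + s * k) + k := by
      have h4 : k * (s + 1) = s * k + k := by ring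
      omega
    rw [Finset.mem_coe, Finset.mem_biUnion]
    refine ⟨(n - 1) % k + 1, Finset.mem_Icc.2 ⟨by omega, by omega⟩, ?_⟩
    rw [Finset.mem_image]
    refine ⟨s, ?_, h3.symm⟩
    rw [Finset.mem_filter, Finset.mem_range]
    refine ⟨by omega, ?_⟩
    exact irr_lt hk (by omega) (by rw [← h3]; exact hI)
  have h1 := Set.ncard_le_ncard hsub (Finset.finite_toSet _)
  rw [Set.ncard_coe_finset] at h1
  have h2 : ((Finset.Icc 1 k).biUnion fun r =>
      (((Finset.range T).filter fun t => a ((r + t * k) + k) < a (r + t * k) + a k).image fun t =>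
        (r + t * k) + k : Finset ℕ)).card ≤ ∑ r ∈ Finset.Icc 1 k,
        ((Finset.range T).filter fun t => a ((r + t * k) + k) < a (r + t * k) + a k).card :=
    Finset.card_biUnion_le.trans (Finset.sum_le_sum fun r _ => Finset.card_image_le)
  refine (Nat.add_le_add_right (h1.trans h2) _).trans ?_
  rw [← Finset.sum_add_distrib]
  exact Finset.sum_le_sum fun r hr => class_count h hk (Finset.mem_Icc.1 hr).1 T

/-- Linear upper bound for the number of compression indices. -/
theorem count_real (h : ∀ i j, 1 ≤ i → 1 ≤ j → a (i + j) ≤ a i + a j) {c : ℝ}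
    (hc : ∀ n : ℕ, 1 ≤ n → c * n ≤ a n) {k : ℕ} (hk : 1 ≤ k) (N : ℕ) :
    (({n | Irr a n} ∩ Set.Iic N).ncard : ℝ) ≤
      N * (a k - c * k) + ((k - 1) + ∑ r ∈ Finset.Icc 1 k, ((a r : ℝ) - c * r)) := by
  classical
  obtain ⟨T, hT⟩ : ∃ T, N / k = T := ⟨_, rfl⟩
  have hN : N ≤ (T + 1) * k := by
    exact (Nat.lt_mul_of_div_lt (show N / k < T + 1 by omega) (by omega)).le
  have hTk : T * k ≤ N := by
    rw [← hT]
    exact Nat.div_mul_le_self N k
  have hsub : {n | Irr a n} ∩ Set.Iic N ⊆ {n | Irr a n ∧ k < n ∧ n ≤ (T + 1) * k} ∪ ((Finset.Icc 2 k : Finset ℕ) : Set ℕ) := by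
    rintro n ⟨hI, hle⟩
    rw [Set.mem_Iic] at hle
    rcases Nat.lt_or_ge k n with h1 | h1
    · exact Or.inl ⟨hI, h1, hle.trans hN⟩
    · refine Or.inr ?_
      rw [Finset.mem_coe, Finset.mem_Icc]
      exact ⟨hI.1, h1⟩
  have hf : {n | Irr a n ∧ k < n ∧ n ≤ (T + 1) * k}.Finite :=
    (Set.finite_Iic ((T + 1) * k)).subset fun n hn => hn.2.2
  have h1 := (Set.ncard_le_ncard hsub (hf.union (Finset.finite_toSet _))).trans (Set.ncard_union_le _ _)
  rw [Set.ncard_coe_finset, Nat.card_Icc] at h1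
  have h2 := count_gen h hk T
  have h3 : (({n | Irr a n} ∩ Set.Iic N).ncard : ℝ) ≤ ({n | Irr a n ∧ k < n ∧ n ≤ (T + 1) * k}.ncard : ℝ) + (k - 1) := by
    have h4 : ({n | Irr a n} ∩ Set.Iic N).ncard + 1 ≤ {n | Irr a n ∧ k < n ∧ n ≤ (T + 1) * k}.ncard + k := by omega
    have h5 : ((({n | Irr a n} ∩ Set.Iic N).ncard + 1 : ℕ) : ℝ) ≤
        (({n | Irr a n ∧ k < n ∧ n ≤ (T + 1) * k}.ncard + k : ℕ) : ℝ) := by exact_mod_cast h4
    push_cast at h5
    linarith
  have h6 : ({n | Irr a n ∧ k < n ∧ n ≤ (T + 1) * k}.ncard : ℝ) + ∑ r ∈ Finset.Icc 1 k, (a (r + T * k) : ℝ) ≤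
      ∑ r ∈ Finset.Icc 1 k, ((a r : ℝ) + T * a k) := by
    exact_mod_cast h2
  have h7 : ∑ r ∈ Finset.Icc 1 k, (c * (r + T * k : ℕ)) ≤ ∑ r ∈ Finset.Icc 1 k, (a (r + T * k) : ℝ) :=
    Finset.sum_le_sum fun r hr => hc _ (by have := (Finset.mem_Icc.1 hr).1; omega)
  have h8 : ∑ r ∈ Finset.Icc 1 k, ((a r : ℝ) + T * a k) - ∑ r ∈ Finset.Icc 1 k, (c * (r + T * k : ℕ)) =
      ∑ r ∈ Finset.Icc 1 k, ((a r : ℝ) - c * r) + k * (T * (a k - c * k)) := by
    rw [← Finset.sum_sub_distrib]
    have e : ∀ r ∈ Finset.Icc 1 k, ((a r : ℝ) + T * a k) - c * ((r + T * k : ℕ) : ℝ) =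
        ((a r : ℝ) - c * r) + T * (a k - c * k) := by
      intro r _
      push_cast
      ring
    rw [Finset.sum_congr rfl e, Finset.sum_add_distrib, Finset.sum_const, Nat.card_Icc, nsmul_eq_mul]
    simp
  have h9 : (k : ℝ) * (T * (a k - c * k)) ≤ N * (a k - c * k) := by
    have h10 : 0 ≤ (a k : ℝ) - c * k := by linarith [hc k hk]
    have h11 : (T : ℝ) * k ≤ N := by exact_mod_cast hTk
    calc (k : ℝ) * (T * (a k - c * k)) = (T * k) * (a k - c * k) := by ring
      _ ≤ _ := mul_le_mul_of_nonneg_right h11 h10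
  linarith

end Pool.Agent.Lib.MP_9ca56c_nt
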