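import Mathlib

/-!
# Integer-valued subadditive sequences: irreducible indices and attained infimum
-/

namespace Pool.Agent.Lib.MP_9ca56c_nt

/-- `n` is a compression index of the sequence `a`: `a n` is smaller than the sum of `a` over every list of
positive integers `< n` with sum `n`. -/
def Irr (a : ℕ → ℕ) (n : ℕ) : Prop :=
  2 ≤ n ∧ ∀ l : List ℕ, (∀ k ∈ l, 0 < k ∧ k < n) → l.sum = n → a n < (l.map a).sum

variable {a : ℕ → ℕ}

theorem list_le (h : ∀ i j, 1 ≤ i → 1 ≤ j → a (i + j) ≤ a i + a j) :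
    ∀ l : List ℕ, l ≠ [] → (∀ k ∈ l, 0 < k) → a l.sum ≤ (l.map a).sum := by
  intro l
  induction l with
  | nil => intro h0; exact absurd rfl h0
  | cons x t ih =>
    intro _ hpos
    have hx : 1 ≤ x := hpos x (by simp)
    have ht : ∀ k ∈ t, 0 < k := fun k hk => hpos k (by simp [hk])
    rcases t with _ | ⟨y, t'⟩
    · simp
    · have h1 := ih (by simp) ht
      have h2 : 1 ≤ (y :: t').sum := by
        have := ht y (by simp)
        simp only [List.sum_cons]
        omega
      have h3 := h x (y :: t').sum hx h2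
      rw [List.sum_cons, List.map_cons, List.sum_cons]
      exact h3.trans (Nat.add_le_add_left h1 _)

theorem mul_le (h : ∀ i j, 1 ≤ i → 1 ≤ j → a (i + j) ≤ a i + a j) {k : ℕ} (hk : 1 ≤ k) :
    ∀ n, 1 ≤ n → a (k * n) ≤ n * a k := by
  intro n hn
  induction n, hn using Nat.le_induction with
  | base => simp
  | succ n hn ih =>
    have h1 := h (k * n) k (Nat.mul_pos hk hn) hk
    rw [Nat.mul_succ, Nat.succ_mul]
    omega

/-- Every value is a sum of values at `1` and at compression indices. -/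
theorem decomp :
    ∀ n, 1 ≤ n → ∃ l : List ℕ, (∀ k ∈ l, 1 ≤ k ∧ (k = 1 ∨ Irr a k)) ∧ l.sum = n ∧ (l.map a).sum ≤ a n := by
  intro n
  induction n using Nat.strong_induction_on with
  | _ n ih =>
    intro hn
    by_cases h1 : n = 1
    · exact ⟨[1], by simp, by simp [h1], by simp [h1]⟩
    by_cases h2 : Irr a n
    · exact ⟨[n], by simpa using ⟨hn, Or.inr h2⟩, by simp, by simp⟩
    have h3 : ∃ l : List ℕ, (∀ k ∈ l, 0 < k ∧ k < n) ∧ l.sum = n ∧ (l.map a).sum ≤ a n := by
      by_contra hcon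
      apply h2
      refine ⟨by omega, fun l hl hs => ?_⟩
      by_contra hlt
      exact hcon ⟨l, hl, hs, not_lt.1 hlt⟩
    obtain ⟨l, hl, hs, hle⟩ := h3
    have key : ∀ t : List ℕ, (∀ k ∈ t, 0 < k ∧ k < n) → ∃ u : List ℕ, (∀ k ∈ u, 1 ≤ k ∧ (k = 1 ∨ Irr a k)) ∧
        u.sum = t.sum ∧ (u.map a).sum ≤ (t.map a).sum := by
      intro t
      induction t with
      | nil => intro _; exact ⟨[], by simp, rfl, le_rfl⟩
      | cons x t iht =>
        intro ht
        obtain ⟨u, hu1, hu2, hu3⟩ := iht fun k hk => ht k (by simp [hk])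
        obtain ⟨v, hv1, hv2, hv3⟩ := ih x (ht x (by simp)).2 (ht x (by simp)).1
        refine ⟨v ++ u, ?_, ?_, ?_⟩
        · intro k hk
          rcases List.mem_append.1 hk with hk | hk
          · exact hv1 k hk
          · exact hu1 k hk
        · rw [List.sum_append, List.sum_cons, hu2, hv2]
        · rw [List.map_append, List.sum_append, List.map_cons, List.sum_cons]
          exact Nat.add_le_add hv3 hu3
    obtain ⟨u, hu1, hu2, hu3⟩ := key l hl
    exact ⟨u, hu1, hu2.trans hs, hu3.trans hle⟩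

/-- If there are finitely many compression indices, the infimum of `a n / n` is attained. -/
theorem attained_of_finite (hf : {n | Irr a n}.Finite) :
    ∃ k, 1 ≤ k ∧ ∀ n, 1 ≤ n → n * a k ≤ k * a n := by
  classical
  have hne : (insert 1 hf.toFinset).Nonempty := ⟨1, Finset.mem_insert_self _ _⟩
  obtain ⟨k, hk, hmin⟩ := Finset.exists_min_image (insert 1 hf.toFinset) (fun n => ((a n : ℕ) : ℚ) / n) hne
  have hpos : ∀ g ∈ insert 1 hf.toFinset, 1 ≤ g := by
    intro g hg
    rcases Finset.mem_insert.1 hg with rfl | hg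
    · exact le_rfl
    · have h1 := (hf.mem_toFinset.1 hg).1
      omega
  have hk1 := hpos k hk
  have hcmp : ∀ g ∈ insert 1 hf.toFinset, g * a k ≤ k * a g := by
    intro g hg
    have h1 := hmin g hg
    have hg1 := hpos g hg
    have hk0 : (0 : ℚ) < k := by exact_mod_cast hk1
    have hg0 : (0 : ℚ) < g := by exact_mod_cast hg1
    rw [div_le_div_iff₀ hk0 hg0] at h1
    have h2 : ((g * a k : ℕ) : ℚ) ≤ ((k * a g : ℕ) : ℚ) := by
      push_cast
      linarith
    exact_mod_cast h2
  refine ⟨k, hk1, fun n hn => ?_⟩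
  obtain ⟨l, hl, hs, hle⟩ := decomp (a := a) n hn
  have key : ∀ t : List ℕ, (∀ g ∈ t, 1 ≤ g ∧ (g = 1 ∨ Irr a g)) → t.sum * a k ≤ k * (t.map a).sum := by
    intro t
    induction t with
    | nil => intro _; simp
    | cons x t iht =>
      intro ht
      have h1 := iht fun g hg => ht g (by simp [hg])
      have h2 := hcmp x (by
        rcases (ht x (by simp)).2 with h3 | h3
        · rw [h3]; exact Finset.mem_insert_self _ _
        · exact Finset.mem_insert_of_mem (hf.mem_toFinset.2 h3))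
      rw [List.sum_cons, List.map_cons, List.sum_cons]
      nlinarith
  calc n * a k = l.sum * a k := by rw [hs]
    _ ≤ k * (l.map a).sum := key l hl
    _ ≤ k * a n := Nat.mul_le_mul_left _ hle

/-- A compression index beyond `k` makes the sequence drop. -/
theorem irr_lt {k n : ℕ} (hk : 1 ≤ k) (hn : 1 ≤ n) (h : Irr a (n + k)) : a (n + k) < a n + a k := by
  have h1 := h.2 [n, k] (by
    intro x hx
    simp only [List.mem_cons, List.not_mem_nil, or_false] at hx
    rcases hx with rfl | rfl <;> omega) (by simp)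
  simpa using h1

/-- Number of drops in one residue class. -/
theorem card_class (h : ∀ i j, 1 ≤ i → 1 ≤ j → a (i + j) ≤ a i + a j) {k : ℕ} (hk : 1 ≤ k)
    (hatt : ∀ n, 1 ≤ n → n * a k ≤ k * a n) {r : ℕ} (hr : 1 ≤ r) (T : ℕ) :
    k * ((Finset.range T).filter fun t => a ((r + t * k) + k) < a (r + t * k) + a k).card +
      (k * a (r + T * k) - (r + T * k) * a k) ≤ k * a r - r * a k := by
  induction T with
  | zero => simp
  | succ T ih =>
    have e1 : r + (T + 1) * k = (r + T * k) + k := by ring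
    have hpos : 1 ≤ r + T * k := by omega
    have h1 := h (r + T * k) k hpos hk
    have h2 := hatt (r + T * k) hpos
    have h3 := hatt (r + (T + 1) * k) (by omega)
    have h4 := hatt r hr
    rw [Finset.range_add_one, Finset.filter_insert]
    by_cases hI : a ((r + T * k) + k) < a (r + T * k) + a k
    · rw [if_pos hI, Finset.card_insert_of_notMem (by simp)]
      rw [e1] at h3 ⊢
      zify [h2, h3, h4] at ih hI ⊢
      nlinarith
    · rw [if_neg hI]
      rw [e1] at h3 ⊢
      zify [h2, h3, h4] at ih h1 ⊢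
      nlinarith

theorem fin_bound (S : Set ℕ) [DecidablePred (· ∈ S)] (B : ℕ) (h : ∀ T, ((Finset.range T).filter (· ∈ S)).card ≤ B) :
    S.Finite ∧ S.ncard ≤ B := by
  have key : ∀ t : Finset ℕ, (∀ x ∈ t, x ∈ S) → t.card ≤ B := by
    intro t ht
    refine (Finset.card_le_card (?_ : t ⊆ (Finset.range (t.sup id + 1)).filter (· ∈ S))).trans (h _)
    intro x hx
    rw [Finset.mem_filter, Finset.mem_range]
    exact ⟨Nat.lt_succ_of_le (Finset.le_sup (f := id) hx), ht x hx⟩
  have hfin : S.Finite := by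
    by_contra hinf
    obtain ⟨t, ht, hc⟩ := Set.Infinite.exists_subset_card_eq hinf (B + 1)
    have := key t fun x hx => ht hx
    omega
  refine ⟨hfin, ?_⟩
  rw [Set.ncard_eq_toFinset_card S hfin]
  exact key _ fun x hx => hfin.mem_toFinset.1 hx

/-- There are few drops. -/
theorem drops (h : ∀ i j, 1 ≤ i → 1 ≤ j → a (i + j) ≤ a i + a j) {k : ℕ} (hk : 1 ≤ k)
    (hatt : ∀ n, 1 ≤ n → n * a k ≤ k * a n) :
    {n | 1 ≤ n ∧ a (n + k) < a n + a k}.Finite ∧
      {n | 1 ≤ n ∧ a (n + k) < a n + a k}.ncard ≤ ∑ r ∈ Finset.Icc 1 k, (k * a r - r * a k) / k := by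
  classical
  have hE : ∀ r, 1 ≤ r → {t | a ((r + t * k) + k) < a (r + t * k) + a k}.Finite ∧
      {t | a ((r + t * k) + k) < a (r + t * k) + a k}.ncard ≤ (k * a r - r * a k) / k := by
    intro r hr
    refine fin_bound _ _ fun T => ?_
    have h1 := card_class h hk hatt hr T
    rw [Nat.le_div_iff_mul_le (by omega), mul_comm]
    have h2 : ((Finset.range T).filter (· ∈ {t | a ((r + t * k) + k) < a (r + t * k) + a k})).card =
        ((Finset.range T).filter fun t => a ((r + t * k) + k) < a (r + t * k) + a k).card := by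
      congr 1
    rw [h2]
    omega
  have hsub : {n | 1 ≤ n ∧ a (n + k) < a n + a k} ⊆ (((Finset.Icc 1 k).attach.biUnion fun r =>
      ((hE r.1 (Finset.mem_Icc.1 r.2).1).1.toFinset.image fun t => r.1 + t * k : Finset ℕ) : Finset ℕ) : Set ℕ) := by
    intro n hn
    have h1 : (n - 1) % k < k := Nat.mod_lt _ (by omega)
    have h2 := Nat.div_add_mod (n - 1) k
    have h3 : n = ((n - 1) % k + 1) + (n - 1) / k * k := by
      have h4 := hn.1
      rw [mul_comm] at h2
      omega
    rw [Finset.mem_coe, Finset.mem_biUnion]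
    refine ⟨⟨(n - 1) % k + 1, Finset.mem_Icc.2 ⟨by omega, by omega⟩⟩, Finset.mem_attach _ _, ?_⟩
    rw [Finset.mem_image]
    refine ⟨(n - 1) / k, ?_, h3.symm⟩
    rw [Set.Finite.mem_toFinset, Set.mem_ofPred_eq, ← h3]
    exact hn.2
  refine ⟨(Finset.finite_toSet _).subset hsub, ?_⟩
  refine (Set.ncard_le_ncard hsub (Finset.finite_toSet _)).trans ?_
  rw [Set.ncard_coe_finset]
  refine Finset.card_biUnion_le.trans ?_
  rw [← Finset.sum_attach (Finset.Icc 1 k)]
  refine Finset.sum_le_sum fun r _ => ?_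
  refine Finset.card_image_le.trans ?_
  have h5 := (hE r.1 (Finset.mem_Icc.1 r.2).1).2
  rwa [Set.ncard_eq_toFinset_card _ (hE r.1 (Finset.mem_Icc.1 r.2).1).1] at h5

/-- If the infimum of `a n / n` is attained at `k`, there are few compression indices beyond `k`. -/
theorem finite_of_attained (h : ∀ i j, 1 ≤ i → 1 ≤ j → a (i + j) ≤ a i + a j) {k : ℕ} (hk : 1 ≤ k)
    (hatt : ∀ n, 1 ≤ n → n * a k ≤ k * a n) :
    {n | Irr a n ∧ k < n}.Finite ∧
      {n | Irr a n ∧ k < n}.ncard ≤ ∑ r ∈ Finset.Icc 1 k, (k * a r - r * a k) / k := by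
  obtain ⟨h1, h2⟩ := drops h hk hatt
  have hsub : {n | Irr a n ∧ k < n} ⊆ (fun n => n + k) '' {n | 1 ≤ n ∧ a (n + k) < a n + a k} := by
    intro n hn
    obtain ⟨hn1, hn2⟩ := hn
    have e : n - k + k = n := by omega
    refine ⟨n - k, ⟨by omega, irr_lt hk (by omega) (by rw [e]; exact hn1)⟩, e⟩
  refine ⟨(h1.image _).subset hsub, ?_⟩
  exact (Set.ncard_le_ncard hsub (h1.image _)).trans ((Set.ncard_image_le h1).trans h2)

/-- Attained infimum in terms of multiples. -/
theorem attained_iff (h : ∀ i j, 1 ≤ i → 1 ≤ j → a (i + j) ≤ a i + a j) {k : ℕ} (hk : 1 ≤ k) :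
    (∀ n, 1 ≤ n → a (k * n) = n * a k) ↔ ∀ n, 1 ≤ n → n * a k ≤ k * a n := by
  constructor
  · intro H n hn
    rw [← H n hn, mul_comm]
    exact mul_le h hn k hk
  · intro H n hn
    refine le_antisymm (mul_le h hk n hn) ?_
    have h1 := H (k * n) (Nat.mul_pos hk hn)
    have h2 : k * (n * a k) ≤ k * a (k * n) := by
      calc k * (n * a k) = k * n * a k := by ring
        _ ≤ _ := h1
    exact Nat.le_of_mul_le_mul_left h2 hk

/-- The three conditions are equivalent. -/
theorem three (h : ∀ i j, 1 ≤ i → 1 ≤ j → a (i + j) ≤ a i + a j) :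
    ({n | Irr a n}.Finite ↔ ∃ k, 1 ≤ k ∧ ∀ n, 1 ≤ n → a (k * n) = n * a k) ∧
    ({n | Irr a n}.Finite ↔ ∃ k, 1 ≤ k ∧ ∃ N, ∀ n, N ≤ n → a (n + k) = a n + a k) := by
  have hab : {n | Irr a n}.Finite → ∃ k, 1 ≤ k ∧ ∀ n, 1 ≤ n → a (k * n) = n * a k := by
    intro hf
    obtain ⟨k, hk, hatt⟩ := attained_of_finite hf
    exact ⟨k, hk, (attained_iff h hk).2 hatt⟩
  have hba : (∃ k, 1 ≤ k ∧ ∀ n, 1 ≤ n → a (k * n) = n * a k) → {n | Irr a n}.Finite := by
    rintro ⟨k, hk, H⟩
    have h1 := (finite_of_attained h hk ((attained_iff h hk).1 H)).1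
    refine (h1.union (Set.finite_Iic k)).subset fun n hn => ?_
    rcases lt_or_ge k n with hlt | hge
    · exact Or.inl ⟨hn, hlt⟩
    · exact Or.inr hge
  have hbc : (∃ k, 1 ≤ k ∧ ∀ n, 1 ≤ n → a (k * n) = n * a k) →
      ∃ k, 1 ≤ k ∧ ∃ N, ∀ n, N ≤ n → a (n + k) = a n + a k := by
    rintro ⟨k, hk, H⟩
    obtain ⟨h1, -⟩ := drops h hk ((attained_iff h hk).1 H)
    obtain ⟨N, hN⟩ := h1.bddAbove
    refine ⟨k, hk, N + 1, fun n hn => le_antisymm (h n k (by omega) hk) ?_⟩
    by_contra hlt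
    have h2 : n ≤ N := hN (show n ∈ {n | 1 ≤ n ∧ a (n + k) < a n + a k} from ⟨by omega, not_le.1 hlt⟩)
    omega
  have hca : (∃ k, 1 ≤ k ∧ ∃ N, ∀ n, N ≤ n → a (n + k) = a n + a k) → {n | Irr a n}.Finite := by
    rintro ⟨k, hk, N, H⟩
    refine (Set.finite_Iic (N + k)).subset fun n hn => ?_
    by_contra hgt
    rw [Set.mem_Iic, not_le] at hgt
    have e : n - k + k = n := by omega
    have h1 := irr_lt (a := a) (k := k) (n := n - k) hk (by omega) (by rw [e]; exact hn)
    have h2 := H (n - k) (by omega)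
    omega
  exact ⟨⟨hab, hba⟩, ⟨fun hf => hbc (hab hf), hca⟩⟩

/-- No compression index. -/
theorem none_iff (h : ∀ i j, 1 ≤ i → 1 ≤ j → a (i + j) ≤ a i + a j) :
    {n | Irr a n} = ∅ ↔ ∀ n, 1 ≤ n → a n = n * a 1 := by
  constructor
  · intro he n hn
    have h1 : {n | Irr a n}.Finite := by rw [he]; exact Set.finite_empty
    obtain ⟨l, hl, hs, hle⟩ := decomp (a := a) n hn
    have h2 : ∀ k ∈ l, k = 1 := by
      intro k hk
      rcases (hl k hk).2 with h3 | h3
      · exact h3
      · have : k ∈ {n | Irr a n} := h3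
        rw [he] at this
        exact absurd this (Set.notMem_empty _)
    have h3 : l = List.replicate l.length 1 := List.eq_replicate_iff.2 ⟨rfl, h2⟩
    have h4 : l.length = n := by
      rw [h3] at hs
      simpa using hs
    refine le_antisymm ?_ ?_
    · have h5 := mul_le h (le_refl 1) n hn
      rwa [one_mul] at h5
    · rw [h3] at hle
      rw [h4] at hle
      simpa using hle
  · intro H
    ext n
    simp only [Set.mem_ofPred_eq, Set.mem_empty_iff_false, iff_false]
    intro hI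
    have h1 := irr_lt (a := a) (k := 1) (n := n - 1) (le_refl 1) (by have := hI.1; omega)
      (by rw [Nat.sub_add_cancel (by have := hI.1; omega)]; exact hI)
    rw [Nat.sub_add_cancel (by have := hI.1; omega), H n (by have := hI.1; omega), H (n - 1) (by have := hI.1; omega)] at h1
    have h2 : n * a 1 = (n - 1) * a 1 + a 1 := by
      obtain ⟨m, rfl⟩ : ∃ m, n = m + 1 := ⟨n - 1, by have := hI.1; omega⟩
      rw [Nat.add_sub_cancel, Nat.succ_mul]
    omega

end Pool.Agent.Lib.MP_9ca56c_nt
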