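import Pool.Agent.Lib.MP_9ca56c_nt.Defs
import Pool.Agent.Lib.MP_9ca56c_nt.Sub

/-!
# The complexity of powers is subadditive
-/

namespace Pool.Agent.Lib.MP_9ca56c_nt

theorem exists_expr : ∀ m : ℕ, 1 ≤ m → ∃ x : Expr, x.val = m := by
  intro m hm
  induction m, hm using Nat.le_induction with
  | base => exact ⟨.one, rfl⟩
  | succ m _ ih =>
    obtain ⟨x, hx⟩ := ih
    exact ⟨.add x .one, by rw [Expr.val, hx, Expr.val]⟩

theorem cpx_attained {m : ℕ} (hm : 1 ≤ m) : ∃ x : Expr, x.val = m ∧ x.ones = cpx m := by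
  obtain ⟨x, hx⟩ := exists_expr m hm
  exact Nat.sInf_mem (s := {s | ∃ x : Expr, x.val = m ∧ x.ones = s}) ⟨x.ones, x, hx, rfl⟩

theorem cpx_le {m : ℕ} (x : Expr) (hx : x.val = m) : cpx m ≤ x.ones := Nat.sInf_le ⟨x, hx, rfl⟩

theorem cpx_mul {m n : ℕ} (hm : 1 ≤ m) (hn : 1 ≤ n) : cpx (m * n) ≤ cpx m + cpx n := by
  obtain ⟨x, hx, hx'⟩ := cpx_attained hm
  obtain ⟨y, hy, hy'⟩ := cpx_attained hn
  have h := cpx_le (.mul x y) (by rw [Expr.val, hx, hy] : (Expr.mul x y).val = m * n)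
  rw [Expr.ones, hx', hy'] at h
  exact h

theorem cpx_pow {m : ℕ} (hm : 1 ≤ m) (i j : ℕ) : cpx (m ^ (i + j)) ≤ cpx (m ^ i) + cpx (m ^ j) := by
  rw [pow_add]
  exact cpx_mul (Nat.one_le_pow _ _ hm) (Nat.one_le_pow _ _ hm)

end Pool.Agent.Lib.MP_9ca56c_nt
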