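import Pool.Agent.Lib.MP_9ca56c_nt.Cpx

/-!
# The lower bound `3 log_3 m ≤ ‖m‖`
-/

namespace Pool.Agent.Lib.MP_9ca56c_nt

theorem val_pos : ∀ x : Expr, 1 ≤ x.val := by
  intro x
  induction x with
  | one => exact le_rfl
  | add x y hx hy => rw [Expr.val]; omega
  | mul x y hx hy => rw [Expr.val]; exact Nat.mul_pos hx hy

theorem ones_pos : ∀ x : Expr, 1 ≤ x.ones := by
  intro x
  induction x with
  | one => exact le_rfl
  | add x y hx hy => rw [Expr.ones]; omega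
  | mul x y hx hy => rw [Expr.ones]; omega

theorem add_aux {u v s t : ℕ} (hu : 1 ≤ u) (huv : u ≤ v) (hs : 1 ≤ s) (h1 : u ^ 3 ≤ 3 ^ s) (h2 : v ^ 3 ≤ 3 ^ t)
    (ht : 1 ≤ t) : (u + v) ^ 3 ≤ 3 ^ (s + t) := by
  have hs3 : 3 ≤ 3 ^ s := by
    calc 3 = 3 ^ 1 := by norm_num
      _ ≤ 3 ^ s := Nat.pow_le_pow_right (by norm_num) hs
  rw [pow_add]
  rcases Nat.lt_or_ge u 2 with h3 | h3
  · have hu1 : u = 1 := by omega
    subst hu1
    rcases Nat.lt_or_ge v 3 with h4 | h4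
    · interval_cases v
      · have : 3 ≤ 3 ^ t := by
          calc 3 = 3 ^ 1 := by norm_num
            _ ≤ 3 ^ t := Nat.pow_le_pow_right (by norm_num) ht
        nlinarith
      · have ht2 : 2 ≤ t := by
          by_contra h5
          have h6 : t = 1 := by omega
          rw [h6] at h2
          norm_num at h2
        have : 9 ≤ 3 ^ t := by
          calc 9 = 3 ^ 2 := by norm_num
            _ ≤ 3 ^ t := Nat.pow_le_pow_right (by norm_num) ht2
        nlinarith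
    · have h5 : (1 + v) ^ 3 ≤ 3 * v ^ 3 := by
        obtain ⟨w, rfl⟩ : ∃ w, v = w + 3 := ⟨v - 3, by omega⟩
        ring_nf
        nlinarith [Nat.zero_le w, Nat.zero_le (w ^ 2), Nat.zero_le (w ^ 3)]
      calc (1 + v) ^ 3 ≤ 3 * v ^ 3 := h5
        _ ≤ 3 ^ s * 3 ^ t := Nat.mul_le_mul hs3 h2
  · have h5 : u + v ≤ u * v := by nlinarith
    calc (u + v) ^ 3 ≤ (u * v) ^ 3 := Nat.pow_le_pow_left h5 3
      _ = u ^ 3 * v ^ 3 := mul_pow _ _ _
      _ ≤ _ := Nat.mul_le_mul h1 h2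

theorem val_le : ∀ x : Expr, x.val ^ 3 ≤ 3 ^ x.ones := by
  intro x
  induction x with
  | one => norm_num [Expr.val, Expr.ones]
  | add x y hx hy =>
    rw [Expr.val, Expr.ones]
    rcases Nat.le_total x.val y.val with h | h
    · exact add_aux (val_pos x) h (ones_pos x) hx hy (ones_pos y)
    · rw [add_comm x.val, add_comm x.ones]
      exact add_aux (val_pos y) h (ones_pos y) hy hx (ones_pos x)
  | mul x y hx hy =>
    rw [Expr.val, Expr.ones, mul_pow, pow_add]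
    exact Nat.mul_le_mul hx hy

theorem cpx_low {m : ℕ} (hm : 1 ≤ m) : m ^ 3 ≤ 3 ^ cpx m := by
  obtain ⟨x, hx, hx'⟩ := cpx_attained hm
  have h := val_le x
  rwa [hx, hx'] at h

theorem log_low {m : ℕ} (hm : 1 ≤ m) (n : ℕ) : 3 * Real.logb 3 m * n ≤ cpx (m ^ n) := by
  have h1 := cpx_low (Nat.one_le_pow n m hm)
  have hm0 : (0 : ℝ) < m := by exact_mod_cast hm
  have h2 : (((m ^ n) ^ 3 : ℕ) : ℝ) ≤ ((3 ^ cpx (m ^ n) : ℕ) : ℝ) := by exact_mod_cast h1
  push_cast at h2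
  have h3 := Real.logb_le_logb_of_le (b := 3) (by norm_num) (by positivity) h2
  rw [Real.logb_pow, Real.logb_pow, Real.logb_pow, Real.logb_self_eq_one (by norm_num)] at h3
  push_cast at h3
  linarith

end Pool.Agent.Lib.MP_9ca56c_nt
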