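import Pool.Agent.Lib.MP_9ca56c_nt.Count
import Pool.Agent.Lib.MP_9ca56c_nt.Low

/-!
# Criteria for powers of a fixed integer
-/

namespace Pool.Agent.Lib.MP_9ca56c_nt

theorem sub_pow {m : ℕ} (hm : 2 ≤ m) :
    ∀ i j, 1 ≤ i → 1 ≤ j → cpx (m ^ (i + j)) ≤ cpx (m ^ i) + cpx (m ^ j) :=
  fun i j _ _ => cpx_pow (by omega) i j

/-- `C(m^k)` is empty iff `‖m^(kn)‖ = n ‖m^k‖`. -/
theorem empty_iff {m : ℕ} (hm : 2 ≤ m) (k : ℕ) (hk : 1 ≤ k) :
    compressionPoints (m ^ k) = ∅ ↔ ∀ n, 1 ≤ n → cpx (m ^ (k * n)) = n * cpx (m ^ k) := by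
  have hmk : 2 ≤ m ^ k := hm.trans (Nat.le_self_pow (by omega) m)
  have h1 := none_iff (a := fun n => cpx ((m ^ k) ^ n)) (sub_pow hmk)
  have e : compressionPoints (m ^ k) = {n | Irr (fun n => cpx ((m ^ k) ^ n)) n} := rfl
  rw [e, h1]
  simp only [pow_one, pow_mul]

/-- `C(m^k)` is empty iff the infimum of `‖m^n‖ / n` is attained at `k`. -/
theorem empty_iff_att {m : ℕ} (hm : 2 ≤ m) (k : ℕ) (hk : 1 ≤ k) :
    compressionPoints (m ^ k) = ∅ ↔ ∀ n, 1 ≤ n → n * cpx (m ^ k) ≤ k * cpx (m ^ n) := by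
  rw [empty_iff hm k hk]
  exact attained_iff (a := fun n => cpx (m ^ n)) (sub_pow hm) hk

theorem finite_iff {m : ℕ} (hm : 2 ≤ m) :
    (compressionPoints m).Finite ↔ ∃ k, 1 ≤ k ∧ compressionPoints (m ^ k) = ∅ := by
  have h1 := (three (a := fun n => cpx (m ^ n)) (sub_pow hm)).1
  have e : compressionPoints m = {n | Irr (fun n => cpx (m ^ n)) n} := rfl
  rw [e, h1]
  constructor
  · rintro ⟨k, hk, H⟩
    exact ⟨k, hk, (empty_iff hm k hk).2 H⟩
  · rintro ⟨k, hk, H⟩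
    exact ⟨k, hk, (empty_iff hm k hk).1 H⟩

theorem finite_nonempty_iff {m : ℕ} (hm : 2 ≤ m) :
    ((compressionPoints m).Finite ∧ (compressionPoints m).Nonempty) ↔
      ∃ k, k ∈ compressionPoints m ∧ compressionPoints (m ^ k) = ∅ := by
  classical
  constructor
  · rintro ⟨hf, hne⟩
    have hex : ∃ k, 1 ≤ k ∧ compressionPoints (m ^ k) = ∅ := (finite_iff hm).1 hf
    obtain ⟨hk, hE⟩ := Nat.find_spec hex
    have hmin : ∀ j, 1 ≤ j → j < Nat.find hex → ¬ ∀ n, 1 ≤ n → n * cpx (m ^ j) ≤ j * cpx (m ^ n) := by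
      intro j hj hlt H
      exact Nat.find_min hex hlt ⟨hj, (empty_iff_att hm j hj).2 H⟩
    rcases least_attained (a := fun n => cpx (m ^ n)) hk ((empty_iff_att hm _ hk).1 hE) hmin with h1 | h1
    · rw [h1, pow_one] at hE
      rw [hE] at hne
      exact absurd hne Set.not_nonempty_empty
    · exact ⟨_, h1, hE⟩
  · rintro ⟨k, hk, hE⟩
    refine ⟨(finite_iff hm).2 ⟨k, ?_, hE⟩, ⟨k, hk⟩⟩
    have := hk.1
    omega

theorem finite_pow_iff {m : ℕ} (hm : 2 ≤ m) (j : ℕ) (hj : 1 ≤ j) :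
    (compressionPoints (m ^ j)).Finite ↔ (compressionPoints m).Finite := by
  have hmj : 2 ≤ m ^ j := hm.trans (Nat.le_self_pow (by omega) m)
  rw [finite_iff hm, finite_iff hmj]
  constructor
  · rintro ⟨k, hk, H⟩
    refine ⟨j * k, Nat.mul_pos hj hk, ?_⟩
    rw [pow_mul]
    exact H
  · rintro ⟨k, hk, H⟩
    refine ⟨k, hk, ?_⟩
    have h1 := (empty_iff hm k hk).1 H
    rw [← pow_mul, empty_iff hm (j * k) (Nat.mul_pos hj hk)]
    intro n hn
    have h2 := h1 (j * n) (Nat.mul_pos hj hn)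
    have h3 := h1 j hj
    rw [show j * k * n = k * (j * n) by ring, h2, mul_comm j k, h3]
    ring

theorem bound {m : ℕ} (hm : 2 ≤ m) (k : ℕ) (hk : 1 ≤ k) (hE : compressionPoints (m ^ k) = ∅) :
    {n | n ∈ compressionPoints m ∧ k < n}.ncard ≤
      ∑ r ∈ Finset.Icc 1 k, (k * cpx (m ^ r) - r * cpx (m ^ k)) / k :=
  (finite_of_attained (a := fun n => cpx (m ^ n)) (sub_pow hm) hk ((empty_iff_att hm k hk).1 hE)).2

theorem count_one' {m : ℕ} (hm : 2 ≤ m) (N : ℕ) (hN : 1 ≤ N) :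
    (compressionPoints m ∩ Set.Iic N).ncard + cpx (m ^ N) ≤ N * cpx m := by
  have h := count_one (a := fun n => cpx (m ^ n)) (sub_pow hm) N hN
  simp only [pow_one] at h
  exact h

theorem count_log {m : ℕ} (hm : 2 ≤ m) (N : ℕ) :
    ((compressionPoints m ∩ Set.Iic N).ncard : ℝ) ≤ N * (cpx m - 3 * Real.logb 3 m) := by
  rcases Nat.eq_zero_or_pos N with rfl | hN
  · have h0 : compressionPoints m ∩ Set.Iic 0 = ∅ := by
      ext n
      simp only [Set.mem_inter_iff, Set.mem_Iic, Set.mem_empty_iff_false, iff_false, not_and]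
      intro hI hle
      have := hI.1
      omega
    rw [h0, Set.ncard_empty]
    simp
  · have h1 := count_one' hm N hN
    have h2 := log_low (m := m) (by omega) N
    have h3 : ((compressionPoints m ∩ Set.Iic N).ncard : ℝ) + cpx (m ^ N) ≤ N * cpx m := by exact_mod_cast h1
    linarith

theorem count_real' {m : ℕ} (hm : 2 ≤ m) {c : ℝ} (hc : ∀ n : ℕ, 1 ≤ n → c * n ≤ cpx (m ^ n)) (k : ℕ) (hk : 1 ≤ k)
    (N : ℕ) :
    ((compressionPoints m ∩ Set.Iic N).ncard : ℝ) ≤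
      N * (cpx (m ^ k) - c * k) + ((k - 1) + ∑ r ∈ Finset.Icc 1 k, ((cpx (m ^ r) : ℝ) - c * r)) :=
  count_real (a := fun n => cpx (m ^ n)) (sub_pow hm) hc hk N

/-- At most a ninth of the exponents are compression points for `2`. -/
theorem two_ninth (N : ℕ) : 9 * (compressionPoints 2 ∩ Set.Iic N).ncard ≤ N := by
  have h1 := count_log (m := 2) le_rfl N
  have h2 : cpx 2 ≤ 2 := cpx_le (m := 2) (.add .one .one) rfl
  have h3 : (cpx 2 : ℝ) ≤ 2 := by exact_mod_cast h2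
  have h4 : (17 : ℝ) ≤ 27 * Real.logb 3 2 := by
    have h5 : ((3 : ℝ) ^ (17 : ℕ)) ≤ 2 ^ (27 : ℕ) := by norm_num
    have h6 := Real.logb_le_logb_of_le (b := 3) (by norm_num) (by positivity) h5
    rw [Real.logb_pow, Real.logb_pow, Real.logb_self_eq_one (by norm_num)] at h6
    push_cast at h6
    linarith
  have h7 : ((compressionPoints 2 ∩ Set.Iic N).ncard : ℝ) ≤ N * (1 / 9) := by
    refine h1.trans (mul_le_mul_of_nonneg_left ?_ (Nat.cast_nonneg N))
    push_cast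
    linarith
  have h8 : ((9 * (compressionPoints 2 ∩ Set.Iic N).ncard : ℕ) : ℝ) ≤ ((N : ℕ) : ℝ) := by
    push_cast
    linarith
  exact_mod_cast h8

end Pool.Agent.Lib.MP_9ca56c_nt
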