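import Mathlib

/-!
# Integer complexity and compression points
-/

namespace Pool.Agent.Lib.MP_9ca56c_nt

/-- Arithmetic expressions built from the constant `1`, addition and multiplication. -/
inductive Expr : Type
  | one : Expr
  | add : Expr → Expr → Expr
  | mul : Expr → Expr → Expr

/-- The value of an expression. -/
def Expr.val : Expr → ℕ
  | .one => 1
  | .add x y => x.val + y.val
  | .mul x y => x.val * y.val

/-- The number of occurrences of `1` in an expression. -/
def Expr.ones : Expr → ℕ
  | .one => 1
  | .add x y => x.ones + y.ones
  | .mul x y => x.ones + y.ones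

/-- The integer complexity of `m`: the least number of ones in an expression with value `m`. -/
noncomputable def cpx (m : ℕ) : ℕ := sInf {s | ∃ x : Expr, x.val = m ∧ x.ones = s}

/-- `n` is a compression point for `m`: `n ≥ 2`, and for all positive integers `k_1, …, k_r < n` with sum `n`
the complexity of `m^n` is less than the sum of the complexities of the `m^(k_i)`. -/
def IsCompression (m n : ℕ) : Prop :=
  2 ≤ n ∧ ∀ l : List ℕ, (∀ k ∈ l, 0 < k ∧ k < n) → l.sum = n → cpx (m ^ n) < (l.map fun k => cpx (m ^ k)).sum

/-- The set of compression points for `m`. -/
def compressionPoints (m : ℕ) : Set ℕ := {n | IsCompression m n}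

end Pool.Agent.Lib.MP_9ca56c_nt
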