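import Pool.Agent.Lib.MP_9ca56c_nt.Wt

/-!
# Cheap powers and compression points
-/

namespace Pool.Agent.Lib.MP_9ca56c_nt

open Finset

/-- The admissible gap for the exponent `η`. -/
noncomputable def gap (η : ℝ) : ℝ := η / (2 * (18 * Real.log (1 + 84 / η) + 3))

theorem gap_pos {η : ℝ} (hη : 0 < η) : 0 < gap η := by
  have : 0 < Real.log (1 + 84 / η) := Real.log_pos (by
    have : 0 < 84 / η := by positivity
    linarith)
  rw [gap]
  positivity

/-- Few integers have small logarithmic complexity (a lemma on the way to the theorem on powers). -/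
theorem count_cheap {η : ℝ} (hη : 0 < η) (hη1 : η ≤ 1) (S : Finset ℕ) (X : ℕ)
    (hS : ∀ n ∈ S, 2 ≤ n ∧ n ≤ X ∧ (cpx n : ℝ) ≤ (3 + gap η) * Real.logb 3 n) :
    (S.card : ℝ) ≤ 12 / η * (X : ℝ) ^ η := by
  obtain ⟨β, hβ⟩ : ∃ β : ℝ, (3 : ℝ) ^ (-(η / 8)) = β := ⟨_, rfl⟩
  have hβ0 : 0 < β := by rw [← hβ]; positivity
  have hβ1 : β < 1 := by
    rw [← hβ]
    exact Real.rpow_lt_one_of_one_lt_of_neg (by norm_num) (by linarith)
  have hlog : Real.logb 3 β = -(η / 8) := by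
    rw [← hβ]
    exact Real.logb_rpow (by norm_num) (by norm_num)
  obtain ⟨B, hBdef⟩ : ∃ B, 12 / η = B := ⟨_, rfl⟩
  have hB : 0 < B := by rw [← hBdef]; positivity
  have hBη : B * η = 12 := by rw [← hBdef]; field_simp
  -- the choice of `s`
  obtain ⟨lg, hlg⟩ : ∃ lg, Real.log (1 + 84 / η) = lg := ⟨_, rfl⟩
  have hlg0 : 0 < lg := by
    rw [← hlg]
    exact Real.log_pos (by
      have : 0 < 84 / η := by positivity
      linarith)
  obtain ⟨s, hsdef⟩ : ∃ s, ⌈18 * lg⌉₊ = s := ⟨_, rfl⟩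
  have hs1 : 1 ≤ s := by
    rw [← hsdef]
    exact Nat.one_le_iff_ne_zero.2 (by
      have := Nat.ceil_pos.2 (show 0 < 18 * lg by positivity)
      omega)
  have hs2 : 18 * lg ≤ s := by rw [← hsdef]; exact Nat.le_ceil _
  have hs3 : (s : ℝ) + 1 ≤ 18 * lg + 3 := by
    have := Nat.ceil_lt_add_one (show 0 ≤ 18 * lg by positivity)
    rw [hsdef] at this
    linarith
  obtain ⟨ε, hεdef⟩ : ∃ ε, gap η = ε := ⟨_, rfl⟩
  rw [hεdef] at hS
  have hε : ε * (2 * (18 * lg + 3)) = η := by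
    rw [← hεdef, gap, hlg]
    field_simp
  have hε0 : 0 < ε := by rw [← hεdef]; exact gap_pos hη
  have hε1 : ε ≤ 1 := by nlinarith
  have hε2 : s * ε ≤ η / 2 := by nlinarith
  have ht : (8 / 9 : ℝ) ^ s * ((1 + B) * (1 + 7 * B)) ≤ 1 := by
    have h7 : 1 + 84 / η = 1 + 7 * B := by rw [← hBdef]; ring
    have h1 : (1 + 7 * B) ^ 2 ≤ (9 / 8 : ℝ) ^ s := by
      have h2 : (1 : ℝ) / 9 ≤ Real.log (9 / 8) := by
        have := Real.one_sub_inv_le_log_of_pos (show (0 : ℝ) < 9 / 8 by norm_num)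
        norm_num at this ⊢
        linarith
      have h3 : 2 * lg ≤ s * Real.log (9 / 8) := by nlinarith
      have h4 : Real.exp (2 * lg) = (1 + 7 * B) ^ 2 := by
        rw [mul_comm, Real.exp_mul, ← hlg, Real.exp_log (by positivity), h7]
        norm_cast
      have h5 : Real.exp (s * Real.log (9 / 8)) = (9 / 8 : ℝ) ^ s := by
        rw [mul_comm, Real.exp_mul, Real.exp_log (by norm_num), Real.rpow_natCast]
      rw [← h4, ← h5]
      exact Real.exp_le_exp.2 h3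
    have h6 : (8 / 9 : ℝ) ^ s * (9 / 8) ^ s = 1 := by
      rw [← mul_pow]
      norm_num
    calc (8 / 9 : ℝ) ^ s * ((1 + B) * (1 + 7 * B)) ≤ (8 / 9 : ℝ) ^ s * (9 / 8) ^ s := by
          gcongr
          refine le_trans ?_ h1
          nlinarith
      _ = 1 := h6
  have hBb : 2 ≤ B * (1 - β ^ 3) := by
    have h1 : β ^ 3 = ((3 : ℝ) ^ (3 * η / 8))⁻¹ := by
      rw [← hβ, ← Real.rpow_natCast, ← Real.rpow_mul (by norm_num), ← Real.rpow_neg (by norm_num)]
      congr 1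
      push_cast
      ring
    have h2 : 1 + 3 * η / 8 ≤ (3 : ℝ) ^ (3 * η / 8) := by
      have hl3 : 1 ≤ Real.log 3 := by
        rw [Real.le_log_iff_exp_le (by norm_num)]
        exact Real.exp_one_lt_three.le
      rw [Real.rpow_def_of_pos (by norm_num)]
      have h3 := Real.add_one_le_exp (Real.log 3 * (3 * η / 8))
      nlinarith
    have h4 : β ^ 3 * (1 + 3 * η / 8) ≤ 1 := by
      rw [h1, inv_mul_le_iff₀ (by positivity)]
      linarith
    have h5 : 0 < β ^ 3 := by positivity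
    have h6 : η / 6 ≤ 1 - β ^ 3 := by nlinarith
    nlinarith
  have hsum := sum_A hβ0 hβ1 rfl hB hBb hs1 ht
  rcases S.eq_empty_or_nonempty with rfl | ⟨n0, hn0⟩
  · rw [card_empty, Nat.cast_zero]
    have : (0 : ℝ) ≤ (X : ℝ) ^ η := Real.rpow_nonneg (Nat.cast_nonneg X) η
    positivity
  have hX : (0 : ℝ) < X := by
    have := hS n0 hn0
    have h1 : 0 < X := by omega
    exact_mod_cast h1
  have key : ∀ n ∈ S, (X : ℝ) ^ (-η) ≤ wt s β n := by
    intro n hn
    obtain ⟨h2, hnX, hc⟩ := hS n hn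
    have hn1 : (1 : ℝ) < n := by
      have : 1 < n := by omega
      exact_mod_cast this
    have hn0 : (0 : ℝ) < n := by linarith
    have hL : 0 < Real.logb 3 n := Real.logb_pos (by norm_num) hn1
    obtain ⟨L, hLdef⟩ : ∃ L, Real.logb 3 n = L := ⟨_, rfl⟩
    rw [hLdef] at hc hL
    have h3 : (X : ℝ) ^ (-η) ≤ (n : ℝ) ^ (-η) :=
      Real.rpow_le_rpow_of_nonpos hn0 (by exact_mod_cast hnX) (by linarith)
    refine h3.trans ?_
    have hw : 0 < wt s β n := by
      rw [wt]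
      positivity
    rw [← Real.logb_le_logb (b := 3) (by norm_num) (by positivity) hw, Real.logb_rpow_eq_mul_logb_of_pos hn0, wt,
      Real.logb_mul (by positivity) (by positivity), Real.logb_pow, Real.logb_pow,
      Real.logb_div (by positivity) (by positivity), Real.logb_pow, Real.logb_pow, hlog,
      Real.logb_self_eq_one (by norm_num), hLdef]
    push_cast
    have h4 : (cpx n : ℝ) * (η / 8) ≤ L * (η / 2) := by
      have h5 : (3 + ε) * L ≤ 4 * L := by nlinarith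
      have h6 : (cpx n : ℝ) ≤ 4 * L := hc.trans h5
      nlinarith
    have h7 : (s : ℝ) * ((cpx n : ℝ) - 3 * L) ≤ L * (η / 2) := by
      have h8 : (cpx n : ℝ) - 3 * L ≤ ε * L := by linarith
      calc (s : ℝ) * ((cpx n : ℝ) - 3 * L) ≤ s * (ε * L) := by gcongr
        _ = (s * ε) * L := by ring
        _ ≤ (η / 2) * L := by gcongr
        _ = _ := by ring
    nlinarith
  have h1 : (S.card : ℝ) * (X : ℝ) ^ (-η) ≤ B := by
    calc (S.card : ℝ) * (X : ℝ) ^ (-η) = ∑ _n ∈ S, (X : ℝ) ^ (-η) := by rw [sum_const, nsmul_eq_mul]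
      _ ≤ ∑ n ∈ S, wt s β n := sum_le_sum key
      _ ≤ ∑ n ∈ A (S.sup cpx), wt s β n := by
        apply sum_le_sum_of_subset_of_nonneg
        · intro n hn
          rw [mem_A]
          exact ⟨(hS n hn).1, le_sup hn⟩
        · exact fun n _ _ => wt_nonneg hβ0 n
      _ ≤ B := hsum _
  have h2 : (X : ℝ) ^ (-η) * (X : ℝ) ^ η = 1 := by
    rw [← Real.rpow_add hX, neg_add_cancel, Real.rpow_zero]
  calc (S.card : ℝ) = S.card * (X : ℝ) ^ (-η) * (X : ℝ) ^ η := by rw [mul_assoc, h2, mul_one]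
    _ ≤ B * (X : ℝ) ^ η := by gcongr
    _ = 12 / η * (X : ℝ) ^ η := by rw [hBdef]

/-- The least cheap exponent is a compression point if it is at least `2`. -/
theorem least_cheap {m : ℕ} {c : ℝ} {j : ℕ} (hj : 2 ≤ j) (hc : (cpx (m ^ j) : ℝ) ≤ c * j)
    (hmin : ∀ i, 1 ≤ i → i < j → c * i < cpx (m ^ i)) : j ∈ compressionPoints m := by
  refine ⟨hj, fun l hl hs => ?_⟩
  have key : ∀ t : List ℕ, (∀ k ∈ t, 0 < k ∧ k < j) → t ≠ [] →
      c * (t.sum : ℕ) < (((t.map fun k => cpx (m ^ k)).sum : ℕ) : ℝ) := by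
    intro t
    induction t with
    | nil => intro _ h0; exact absurd rfl h0
    | cons x t iht =>
      intro ht _
      have hx := ht x (by simp)
      have h2 := hmin x hx.1 hx.2
      rw [List.sum_cons, List.map_cons, List.sum_cons]
      rcases t with _ | ⟨y, t'⟩
      · simpa using h2
      · have h3 := iht (fun g hg => ht g (by simp [hg])) (by simp)
        push_cast at h3 ⊢
        linarith
  have hne : l ≠ [] := by
    rintro rfl
    simp at hs
    omega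
  have h6 := key l hl hne
  rw [hs] at h6
  have h7 : (cpx (m ^ j) : ℝ) < (((l.map fun k => cpx (m ^ k)).sum : ℕ) : ℝ) := lt_of_le_of_lt hc h6
  exact_mod_cast h7

/-- The constant in front. -/
noncomputable def cst (η : ℝ) : ℝ := η / (4 * (18 * (168 / η) + 5))

theorem cst_pos {η : ℝ} (hη : 0 < η) : 0 < cst η := by
  rw [cst]
  positivity

theorem log_ge {k : ℕ} (hk : 1 ≤ k) : 3 ≤ 5 * Real.log (k + 1) := by
  have h1 : Real.log 2 ≤ Real.log (k + 1) := by
    apply Real.log_le_log (by norm_num)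
    have : (1 : ℝ) ≤ k := by exact_mod_cast hk
    linarith
  have := Real.log_two_gt_d9
  linarith

theorem cst_le_gap {η : ℝ} (hη : 0 < η) (hη1 : η ≤ 1) {k : ℕ} (hk : 1 ≤ k) :
    cst η / (k * Real.log (k + 1)) ≤ gap (η / (2 * k)) := by
  have hk0 : (1 : ℝ) ≤ k := by exact_mod_cast hk
  have hl := log_ge hk
  have hl0 : 0 < Real.log (k + 1) := by linarith
  obtain ⟨a, ha⟩ : ∃ a, 168 / η = a := ⟨_, rfl⟩
  have ha1 : 1 ≤ a := by
    rw [← ha, le_div_iff₀ hη]
    linarith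
  have h1 : Real.log (1 + 84 / (η / (2 * k))) ≤ a * Real.log (k + 1) := by
    have h2 : 84 / (η / (2 * k)) = a * k := by rw [← ha]; field_simp; norm_num
    rw [h2, ← Real.log_rpow (by positivity)]
    apply Real.log_le_log (by positivity)
    have := one_add_mul_self_le_rpow_one_add (show (-1 : ℝ) ≤ k by linarith) ha1
    rwa [add_comm 1 (k : ℝ)] at this
  have h3 : 0 < Real.log (1 + 84 / (η / (2 * k))) := Real.log_pos (by
    have : 0 < 84 / (η / (2 * k)) := by positivity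
    linarith)
  rw [gap, cst, ha]
  rw [div_div, div_div, div_le_div_iff₀ (by positivity) (by positivity)]
  have h4 : 18 * Real.log (1 + 84 / (η / (2 * k))) + 3 ≤ (18 * a + 5) * Real.log (k + 1) := by nlinarith
  calc η * (2 * k * (2 * (18 * Real.log (1 + 84 / (η / (2 * k))) + 3)))
      ≤ η * (2 * k * (2 * ((18 * a + 5) * Real.log (k + 1)))) := by gcongr
    _ = η * (4 * (18 * a + 5) * (k * Real.log (k + 1))) := by ring

/-- The integers with a cheap power of small exponent are rare. -/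
theorem count_small {η : ℝ} (hη : 0 < η) (hη1 : η ≤ 1) (x : ℕ) :
    (({m : ℕ | 2 ≤ m ∧ ∃ k : ℕ, 1 ≤ k ∧ (k : ℝ) ≤ (m : ℝ) ^ (η / 4) ∧
        (cpx (m ^ k) : ℝ) ≤ (3 + cst η / (k * Real.log (k + 1))) * Real.logb 3 ((m : ℝ) ^ k)} ∩
      Set.Iic x).ncard : ℝ) ≤ 24 / η * (x : ℝ) ^ η := by
  classical
  rcases Nat.eq_zero_or_pos x with rfl | hx
  · have h0 : {m : ℕ | 2 ≤ m ∧ ∃ k : ℕ, 1 ≤ k ∧ (k : ℝ) ≤ (m : ℝ) ^ (η / 4) ∧
        (cpx (m ^ k) : ℝ) ≤ (3 + cst η / (k * Real.log (k + 1))) * Real.logb 3 ((m : ℝ) ^ k)} ∩ Set.Iic 0 = ∅ := by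
      ext m
      simp only [Set.mem_inter_iff, Set.mem_ofPred_eq, Set.mem_Iic, Set.mem_empty_iff_false, iff_false, not_and]
      intro h1 h2
      omega
    rw [h0, Set.ncard_empty]
    have : (0 : ℝ) ≤ ((0 : ℕ) : ℝ) ^ η := Real.rpow_nonneg (by simp) η
    have h2 : (0 : ℝ) ≤ 24 / η := by positivity
    simpa using mul_nonneg h2 this
  have hx1 : (1 : ℝ) ≤ x := by exact_mod_cast hx
  have hx0 : (0 : ℝ) < x := by linarith
  obtain ⟨Y, hY⟩ : ∃ Y, ⌊(x : ℝ) ^ (η / 4)⌋₊ = Y := ⟨_, rfl⟩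
  have hYle : (Y : ℝ) ≤ (x : ℝ) ^ (η / 4) := by
    rw [← hY]
    exact Nat.floor_le (by positivity)
  have hsub : {m : ℕ | 2 ≤ m ∧ ∃ k : ℕ, 1 ≤ k ∧ (k : ℝ) ≤ (m : ℝ) ^ (η / 4) ∧
        (cpx (m ^ k) : ℝ) ≤ (3 + cst η / (k * Real.log (k + 1))) * Real.logb 3 ((m : ℝ) ^ k)} ∩
      Set.Iic x ⊆ (((Finset.Icc 1 Y).biUnion fun k => (Finset.Icc 2 x).filter fun m =>
        (cpx (m ^ k) : ℝ) ≤ (3 + cst η / (k * Real.log (k + 1))) * Real.logb 3 ((m : ℝ) ^ k) : Finset ℕ) : Set ℕ) := by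
    rintro m ⟨⟨h2, k, hk1, hkm, hc⟩, hmx⟩
    rw [mem_coe, mem_biUnion]
    refine ⟨k, mem_Icc.2 ⟨hk1, ?_⟩, ?_⟩
    · rw [← hY]
      apply Nat.le_floor
      refine hkm.trans ?_
      apply Real.rpow_le_rpow (by positivity) (by exact_mod_cast hmx) (by positivity)
    · rw [mem_filter, mem_Icc]
      exact ⟨⟨h2, hmx⟩, hc⟩
  have h1 := Set.ncard_le_ncard hsub (Finset.finite_toSet _)
  rw [Set.ncard_coe_finset] at h1
  have h2 : ∀ k ∈ Finset.Icc 1 Y, (((Finset.Icc 2 x).filter fun m =>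
      (cpx (m ^ k) : ℝ) ≤ (3 + cst η / (k * Real.log (k + 1))) * Real.logb 3 ((m : ℝ) ^ k)).card : ℝ) ≤
        24 / η * Y * (x : ℝ) ^ (η / 2) := by
    intro k hk
    rw [mem_Icc] at hk
    have hk0 : (1 : ℝ) ≤ k := by exact_mod_cast hk.1
    have hinj : Set.InjOn (fun m : ℕ => m ^ k) ((Finset.Icc 2 x).filter fun m =>
        (cpx (m ^ k) : ℝ) ≤ (3 + cst η / (k * Real.log (k + 1))) * Real.logb 3 ((m : ℝ) ^ k) : Finset ℕ) := by
      intro a _ b _ hab
      exact Nat.pow_left_injective (by omega) hab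
    rw [← card_image_of_injOn hinj]
    have h3 := count_cheap (η := η / (2 * k)) (by positivity) (by
        rw [div_le_one (by positivity)]
        linarith) (((Finset.Icc 2 x).filter fun m =>
      (cpx (m ^ k) : ℝ) ≤ (3 + cst η / (k * Real.log (k + 1))) * Real.logb 3 ((m : ℝ) ^ k)).image
        fun m : ℕ => m ^ k) (x ^ k) (by
        intro n hn
        obtain ⟨m, hm, rfl⟩ := mem_image.1 hn
        rw [mem_filter, mem_Icc] at hm
        refine ⟨hm.1.1.trans (Nat.le_self_pow (by omega) m), Nat.pow_le_pow_left hm.1.2 k, ?_⟩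
        push_cast
        refine hm.2.trans ?_
        have h5 := cst_le_gap hη hη1 hk.1
        have h6 : 0 ≤ Real.logb 3 ((m : ℝ) ^ k) := by
          apply Real.logb_nonneg (by norm_num)
          apply one_le_pow₀
          have : 1 ≤ m := by omega
          exact_mod_cast this
        gcongr)
    refine h3.trans ?_
    have h4 : ((x ^ k : ℕ) : ℝ) ^ (η / (2 * k)) = (x : ℝ) ^ (η / 2) := by
      push_cast
      rw [← Real.rpow_natCast, ← Real.rpow_mul (by linarith)]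
      congr 1
      field_simp
    rw [h4]
    have h5 : 12 / (η / (2 * k)) = 24 / η * k := by field_simp; norm_num
    rw [h5]
    have h6 : (k : ℝ) ≤ Y := by exact_mod_cast hk.2
    gcongr
  have h3 : ((((Finset.Icc 1 Y).biUnion fun k => (Finset.Icc 2 x).filter fun m =>
      (cpx (m ^ k) : ℝ) ≤ (3 + cst η / (k * Real.log (k + 1))) * Real.logb 3 ((m : ℝ) ^ k)).card : ℕ) : ℝ) ≤
        Y * (24 / η * Y * (x : ℝ) ^ (η / 2)) := by
    have h4 : ((((Finset.Icc 1 Y).biUnion fun k => (Finset.Icc 2 x).filter fun m =>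
        (cpx (m ^ k) : ℝ) ≤ (3 + cst η / (k * Real.log (k + 1))) * Real.logb 3 ((m : ℝ) ^ k)).card : ℕ) : ℝ) ≤
        ((∑ k ∈ Finset.Icc 1 Y, ((Finset.Icc 2 x).filter fun m =>
          (cpx (m ^ k) : ℝ) ≤ (3 + cst η / (k * Real.log (k + 1))) * Real.logb 3 ((m : ℝ) ^ k)).card : ℕ) : ℝ) := by
      exact_mod_cast card_biUnion_le
    refine h4.trans ?_
    push_cast
    refine (sum_le_sum h2).trans ?_
    rw [sum_const, Nat.card_Icc, nsmul_eq_mul]
    simp
  have h4 : (x : ℝ) ^ (η / 4) * (x : ℝ) ^ (η / 4) * (x : ℝ) ^ (η / 2) = (x : ℝ) ^ η := by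
    rw [← Real.rpow_add hx0, ← Real.rpow_add hx0]
    congr 1
    ring
  calc _ ≤ ((((Finset.Icc 1 Y).biUnion fun k => (Finset.Icc 2 x).filter fun m =>
      (cpx (m ^ k) : ℝ) ≤ (3 + cst η / (k * Real.log (k + 1))) * Real.logb 3 ((m : ℝ) ^ k)).card : ℕ) : ℝ) := by
        exact_mod_cast h1
    _ ≤ Y * (24 / η * Y * (x : ℝ) ^ (η / 2)) := h3
    _ = 24 / η * (Y * Y * (x : ℝ) ^ (η / 2)) := by ring
    _ ≤ 24 / η * ((x : ℝ) ^ (η / 4) * (x : ℝ) ^ (η / 4) * (x : ℝ) ^ (η / 2)) := by gcongr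
    _ = _ := by rw [h4]

end Pool.Agent.Lib.MP_9ca56c_nt
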