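import Pool.Agent.Lib.MP_9ca56c_nt.Low

/-!
# Optimal expressions
-/

namespace Pool.Agent.Lib.MP_9ca56c_nt

theorem cpx_pos {m : ℕ} (hm : 1 ≤ m) : 1 ≤ cpx m := by
  obtain ⟨x, -, hx⟩ := cpx_attained hm
  rw [← hx]
  exact ones_pos x

theorem cpx_add {m n : ℕ} (hm : 1 ≤ m) (hn : 1 ≤ n) : cpx (m + n) ≤ cpx m + cpx n := by
  obtain ⟨x, hx, hx'⟩ := cpx_attained hm
  obtain ⟨y, hy, hy'⟩ := cpx_attained hn
  have h := cpx_le (.add x y) (by rw [Expr.val, hx, hy] : (Expr.add x y).val = m + n)
  rw [Expr.ones, hx', hy'] at h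
  exact h

/-- `n` has an optimal expression which is a sum. -/
def SumType (n : ℕ) : Prop := ∃ u v, 1 ≤ v ∧ v ≤ u ∧ u + v = n ∧ cpx n = cpx u + cpx v

/-- An integer `≥ 2` has an optimal expression which is a sum or a product. -/
theorem split {n : ℕ} (hn : 2 ≤ n) :
    SumType n ∨ ∃ u v, 1 ≤ u ∧ 1 ≤ v ∧ u * v = n ∧ cpx n = cpx u + cpx v := by
  obtain ⟨x, hx, hx'⟩ := cpx_attained (show 1 ≤ n by omega)
  cases x with
  | one =>
    rw [Expr.val] at hx
    omega
  | add y z =>
    left
    rw [Expr.val] at hx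
    rw [Expr.ones] at hx'
    have h1 := cpx_le y rfl
    have h2 := cpx_le z rfl
    have h3 := cpx_add (val_pos y) (val_pos z)
    rw [hx] at h3
    rcases Nat.le_total z.val y.val with h | h
    · exact ⟨y.val, z.val, val_pos z, h, hx, by omega⟩
    · exact ⟨z.val, y.val, val_pos y, h, by omega, by omega⟩
  | mul y z =>
    right
    rw [Expr.val] at hx
    rw [Expr.ones] at hx'
    have h1 := cpx_le y rfl
    have h2 := cpx_le z rfl
    have h3 := cpx_mul (val_pos y) (val_pos z)
    rw [hx] at h3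
    exact ⟨y.val, z.val, val_pos y, val_pos z, hx, by omega⟩

/-- Every integer `≥ 2` is of sum type or an optimal product of an integer of sum type and another integer `≥ 2`. -/
theorem factor : ∀ K n : ℕ, cpx n ≤ K → 2 ≤ n →
    SumType n ∨ ∃ c m, 2 ≤ c ∧ 2 ≤ m ∧ SumType c ∧ c * m = n ∧ cpx n = cpx c + cpx m := by
  intro K
  induction K with
  | zero =>
    intro n h1 h2
    have := cpx_pos (show 1 ≤ n by omega)
    omega
  | succ K ih =>
    intro n h1 h2
    rcases split h2 with h | ⟨u, v, hu, hv, huv, hc⟩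
    · exact Or.inl h
    · have hcu := cpx_pos hu
      have hcv := cpx_pos hv
      have hu2 : 2 ≤ u := by
        by_contra h3
        have h4 : u = 1 := by omega
        rw [h4, one_mul] at huv
        rw [huv] at hc
        omega
      have hv2 : 2 ≤ v := by
        by_contra h3
        have h4 : v = 1 := by omega
        rw [h4, mul_one] at huv
        rw [huv] at hc
        omega
      rcases ih u (by omega) hu2 with h | ⟨c, m, hc2, hm2, hS, hcm, hcc⟩
      · exact Or.inr ⟨u, v, hu2, hv2, h, huv, hc⟩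
      · refine Or.inr ⟨c, m * v, hc2, ?_, hS, ?_, ?_⟩
        · nlinarith
        · rw [← mul_assoc, hcm, huv]
        · have h5 := cpx_mul (show 1 ≤ m by omega) hv
          have h6 := cpx_mul (show 1 ≤ c by omega) (show 1 ≤ m * v from Nat.mul_pos (by omega) hv)
          rw [← mul_assoc, hcm, huv] at h6
          omega

theorem cpx_one : cpx 1 = 1 := by
  have h2 : cpx 1 ≤ 1 := cpx_le (m := 1) .one rfl
  have h3 := cpx_pos (m := 1) (by norm_num)
  omega

theorem cpx_two : cpx 2 = 2 := by
  have h1 := cpx_low (m := 2) (by norm_num)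
  have h2 : cpx 2 ≤ 2 := cpx_le (m := 2) (.add .one .one) rfl
  have h3 := cpx_pos (m := 2) (by norm_num)
  have h4 : cpx 2 ≠ 1 := by
    intro h
    rw [h] at h1
    norm_num at h1
  omega

theorem cpx_three : cpx 3 = 3 := by
  have h1 := cpx_low (m := 3) (by norm_num)
  have h2 : cpx 3 ≤ 3 := cpx_le (m := 3) (.add (.add .one .one) .one) rfl
  have h3 := (Nat.pow_le_pow_iff_right (show 1 < 3 by norm_num)).1 h1
  omega

end Pool.Agent.Lib.MP_9ca56c_nt
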