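import Pool.Agent.Lib.MP_9ca56c_nt.Opt

/-!
# A weight with bounded sums

For `0 < β < 1` and a large integer `s` the weight `wt s β n = (n ^ 3 / 3 ^ ‖n‖) ^ s * β ^ ‖n‖` has bounded sums over
the integers `n ≥ 2`.
-/

namespace Pool.Agent.Lib.MP_9ca56c_nt

open Finset

/-- The weight. -/
noncomputable def wt (s : ℕ) (β : ℝ) (n : ℕ) : ℝ := ((n : ℝ) ^ 3 / 3 ^ cpx n) ^ s * β ^ cpx n

/-- The factor lost when `v` is added. -/
noncomputable def rho (v : ℕ) : ℝ := if v = 1 then 64 / 81 else if v = 2 then 8 / 9 else 8 / (v : ℝ) ^ 3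

variable {s : ℕ} {β : ℝ}

theorem wt_nonneg (hβ : 0 < β) (n : ℕ) : 0 ≤ wt s β n := by
  rw [wt]
  positivity

theorem rho_nonneg (v : ℕ) : 0 ≤ rho v := by
  rw [rho]
  split_ifs <;> positivity

theorem wt_two (hβ : 0 < β) (h1 : β < 1) : wt s β 2 ≤ (8 / 9) ^ s := by
  rw [wt, cpx_two]
  have h2 : β ^ 2 ≤ 1 := pow_le_one₀ hβ.le h1.le
  have h3 : (((2 : ℕ) : ℝ) ^ 3 / 3 ^ 2) = 8 / 9 := by norm_num
  rw [h3]
  calc ((8 : ℝ) / 9) ^ s * β ^ 2 ≤ (8 / 9) ^ s * 1 := by gcongr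
    _ = _ := mul_one _

theorem wt_three : wt s β 3 = β ^ 3 := by
  rw [wt, cpx_three]
  norm_num

theorem wt_mul {c m : ℕ} (h : cpx (c * m) = cpx c + cpx m) : wt s β (c * m) = wt s β c * wt s β m := by
  rw [wt, wt, wt, h, pow_add, pow_add]
  push_cast
  rw [mul_pow, mul_div_mul_comm, mul_pow]
  ring

theorem rho_bound {u v : ℕ} (hv : 1 ≤ v) (hvu : v ≤ u) (h4 : 4 ≤ u + v) :
    ((u + v : ℕ) : ℝ) ^ 3 ≤ rho v * ((u : ℝ) ^ 3 * 3 ^ cpx v) := by
  have hu0 : (0 : ℝ) < u := by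
    have : 0 < u := by omega
    exact_mod_cast this
  have hvu' : (v : ℝ) ≤ u := by exact_mod_cast hvu
  rw [rho]
  split_ifs with h1 h2
  · subst h1
    rw [cpx_one]
    have h3 : (3 : ℝ) ≤ u := by
      have : 3 ≤ u := by omega
      exact_mod_cast this
    have h5 : ((u : ℝ) + 1) ≤ 4 / 3 * u := by linarith
    have h6 := pow_le_pow_left₀ (by positivity) h5 3
    push_cast
    calc ((u : ℝ) + 1) ^ 3 ≤ (4 / 3 * u) ^ 3 := h6
      _ = 64 / 81 * ((u : ℝ) ^ 3 * 3 ^ 1) := by ring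
  · subst h2
    rw [cpx_two]
    have h3 : (2 : ℝ) ≤ u := by exact_mod_cast hvu
    have h5 : ((u : ℝ) + 2) ≤ 2 * u := by linarith
    have h6 := pow_le_pow_left₀ (by positivity) h5 3
    push_cast
    calc ((u : ℝ) + 2) ^ 3 ≤ (2 * u) ^ 3 := h6
      _ = 8 / 9 * ((u : ℝ) ^ 3 * 3 ^ 2) := by ring
  · have hv0 : (0 : ℝ) < v := by exact_mod_cast hv
    have h5 : ((u : ℝ) + v) ≤ 2 * u := by linarith
    have h6 := pow_le_pow_left₀ (by positivity) h5 3
    have h7 : ((v : ℝ) ^ 3) ≤ 3 ^ cpx v := by exact_mod_cast cpx_low hv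
    push_cast
    calc ((u : ℝ) + v) ^ 3 ≤ (2 * u) ^ 3 := h6
      _ = 8 / (v : ℝ) ^ 3 * ((u : ℝ) ^ 3 * (v : ℝ) ^ 3) := by field_simp; ring
      _ ≤ 8 / (v : ℝ) ^ 3 * ((u : ℝ) ^ 3 * 3 ^ cpx v) := by gcongr

theorem wt_add (hβ : 0 < β) (hβ1 : β < 1) {u v : ℕ} (hv : 1 ≤ v) (hvu : v ≤ u) (h4 : 4 ≤ u + v)
    (h : cpx (u + v) = cpx u + cpx v) : wt s β (u + v) ≤ wt s β u * rho v ^ s := by
  have hu0 : (0 : ℝ) < u := by
    have : 0 < u := by omega
    exact_mod_cast this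
  have h1 := rho_bound hv hvu h4
  have h2 : ((u + v : ℕ) : ℝ) ^ 3 / 3 ^ (cpx u + cpx v) ≤ (u : ℝ) ^ 3 / 3 ^ cpx u * rho v := by
    rw [pow_add, div_mul_eq_mul_div, div_le_div_iff₀ (by positivity) (by positivity)]
    calc ((u + v : ℕ) : ℝ) ^ 3 * 3 ^ cpx u ≤ (rho v * ((u : ℝ) ^ 3 * 3 ^ cpx v)) * 3 ^ cpx u := by gcongr
      _ = _ := by ring
  have h3 := pow_le_pow_left₀ (by positivity) h2 s
  have h5 : β ^ (cpx u + cpx v) ≤ β ^ cpx u := by
    apply pow_le_pow_of_le_one hβ.le hβ1.le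
    omega
  rw [wt, wt, h]
  calc (((u + v : ℕ) : ℝ) ^ 3 / 3 ^ (cpx u + cpx v)) ^ s * β ^ (cpx u + cpx v)
      ≤ ((u : ℝ) ^ 3 / 3 ^ cpx u * rho v) ^ s * β ^ cpx u := by
        apply mul_le_mul h3 h5 (by positivity)
        have := rho_nonneg v
        positivity
    _ = _ := by rw [mul_pow]; ring

theorem rho_sum {s : ℕ} (hs : 1 ≤ s) (M : ℕ) : ∑ v ∈ Icc 1 M, rho v ^ s ≤ 7 * (8 / 9) ^ s := by
  obtain ⟨r, rfl⟩ : ∃ r, s = r + 1 := ⟨s - 1, by omega⟩
  have key : ∀ M : ℕ, 2 ≤ M → ∑ v ∈ Icc 1 M, rho v ^ (r + 1) ≤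
      (64 / 81) ^ (r + 1) + (8 / 9) ^ (r + 1) + (8 / 27) ^ r * (8 / 3 * (1 / 2 - 1 / (M : ℝ))) := by
    intro M hM
    induction M, hM using Nat.le_induction with
    | base =>
      rw [show Icc 1 2 = ({1, 2} : Finset ℕ) from by decide, sum_pair (by norm_num)]
      have h1 : rho 1 = 64 / 81 := by rw [rho, if_pos rfl]
      have h2 : rho 2 = 8 / 9 := by rw [rho, if_neg (by norm_num), if_pos rfl]
      rw [h1, h2]
      norm_num
    | succ M hM ih =>
      rw [sum_Icc_succ_top (by omega)]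
      have hM0 : (2 : ℝ) ≤ M := by exact_mod_cast hM
      have h1 : rho (M + 1) ^ (r + 1) ≤ (8 / 27) ^ r * (8 / 3 * (1 / (M : ℝ) - 1 / ((M + 1 : ℕ) : ℝ))) := by
        have h2 : rho (M + 1) = 8 / ((M + 1 : ℕ) : ℝ) ^ 3 := by
          rw [rho, if_neg (by omega), if_neg (by omega)]
        have h3 : (3 : ℝ) ≤ ((M + 1 : ℕ) : ℝ) := by
          push_cast
          linarith
        have h4 : rho (M + 1) ≤ 8 / 27 := by
          rw [h2]
          have h5 := pow_le_pow_left₀ (by norm_num) h3 3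
          apply div_le_div_of_nonneg_left (by norm_num) (by norm_num)
          linarith
        have h5 : rho (M + 1) ^ r ≤ (8 / 27) ^ r := pow_le_pow_left₀ (rho_nonneg _) h4 r
        have h6 : rho (M + 1) ≤ 8 / 3 * (1 / (M : ℝ) - 1 / ((M + 1 : ℕ) : ℝ)) := by
          rw [h2]
          push_cast at h3 ⊢
          have hM1 : (0 : ℝ) < M := by linarith
          rw [div_sub_div _ _ (by positivity) (by positivity), ← mul_div_assoc, div_le_div_iff₀ (by positivity) (by positivity)]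
          nlinarith [mul_pos hM1 hM1, mul_pos (mul_pos hM1 hM1) hM1]
        rw [pow_succ]
        exact mul_le_mul h5 h6 (rho_nonneg _) (by positivity)
      have h8 : (8 / 27 : ℝ) ^ r * (8 / 3 * (1 / 2 - 1 / (M : ℝ))) +
          (8 / 27) ^ r * (8 / 3 * (1 / (M : ℝ) - 1 / ((M + 1 : ℕ) : ℝ))) =
          (8 / 27) ^ r * (8 / 3 * (1 / 2 - 1 / ((M + 1 : ℕ) : ℝ))) := by ring
      linarith
  have h1 := key (M + 2) (by omega)
  have h2 : ∑ v ∈ Icc 1 M, rho v ^ (r + 1) ≤ ∑ v ∈ Icc 1 (M + 2), rho v ^ (r + 1) := by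
    apply sum_le_sum_of_subset_of_nonneg
    · exact Icc_subset_Icc le_rfl (by omega)
    · intro v _ _
      exact pow_nonneg (rho_nonneg v) _
  have h3 : (8 / 27 : ℝ) ^ r * (8 / 3 * (1 / 2 - 1 / ((M + 2 : ℕ) : ℝ))) ≤ 5 * (8 / 9) ^ (r + 1) := by
    have h4 : (8 / 27 : ℝ) ^ r ≤ (8 / 9) ^ r := pow_le_pow_left₀ (by norm_num) (by norm_num) r
    have h5 : (0 : ℝ) ≤ 1 / ((M + 2 : ℕ) : ℝ) := by positivity
    have h6 : (8 : ℝ) / 3 * (1 / 2 - 1 / ((M + 2 : ℕ) : ℝ)) ≤ 4 / 3 := by linarith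
    calc (8 / 27 : ℝ) ^ r * (8 / 3 * (1 / 2 - 1 / ((M + 2 : ℕ) : ℝ))) ≤ (8 / 27) ^ r * (4 / 3) := by gcongr
      _ ≤ (8 / 9) ^ r * (4 / 3) := by gcongr
      _ ≤ 5 * (8 / 9) ^ (r + 1) := by
        rw [pow_succ]
        have : (0 : ℝ) < (8 / 9) ^ r := by positivity
        nlinarith
  have h4 : (64 / 81 : ℝ) ^ (r + 1) ≤ (8 / 9) ^ (r + 1) := pow_le_pow_left₀ (by norm_num) (by norm_num) _
  linarith

/-- The integers `n ≥ 2` with `‖n‖ ≤ K`. -/
noncomputable def A (K : ℕ) : Finset ℕ := (range (3 ^ K + 1)).filter fun n => 2 ≤ n ∧ cpx n ≤ K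

theorem le_pow {n K : ℕ} (hn : 1 ≤ n) (h : cpx n ≤ K) : n ≤ 3 ^ K := by
  have h1 := cpx_low hn
  have h2 : n ≤ n ^ 3 := Nat.le_self_pow (by norm_num) n
  exact h2.trans (h1.trans (Nat.pow_le_pow_right (by norm_num) h))

theorem mem_A {K n : ℕ} : n ∈ A K ↔ 2 ≤ n ∧ cpx n ≤ K := by
  rw [A, mem_filter, mem_range]
  constructor
  · exact fun h => h.2
  · intro h
    exact ⟨Nat.lt_succ_of_le (le_pow (by omega) h.2), h⟩

/-- A sum over a set covered by another one. -/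
theorem sum_cover {κ : Type} (S : Finset ℕ) (t : Finset κ) (g : κ → ℕ) (f : ℕ → ℝ) (F : κ → ℝ)
    (hF : ∀ b ∈ t, 0 ≤ F b) (h : ∀ a ∈ S, ∃ b ∈ t, g b = a ∧ f a ≤ F b) : ∑ a ∈ S, f a ≤ ∑ b ∈ t, F b := by
  classical
  choose b hb hg hf using h
  calc ∑ a ∈ S, f a = ∑ a ∈ S.attach, f a := (sum_attach S f).symm
    _ ≤ ∑ a ∈ S.attach, F (b a.1 a.2) := sum_le_sum fun a _ => hf a.1 a.2
    _ = ∑ x ∈ S.attach.image fun a => b a.1 a.2, F x := by
      rw [sum_image]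
      intro x _ y _ hxy
      apply Subtype.ext
      rw [← hg x.1 x.2, ← hg y.1 y.2]
      exact congrArg g hxy
    _ ≤ ∑ x ∈ t, F x := by
      apply sum_le_sum_of_subset_of_nonneg
      · intro x hx
        obtain ⟨a, -, rfl⟩ := mem_image.1 hx
        exact hb a.1 a.2
      · exact fun x hx _ => hF x hx

/-- The sum over integers of sum type. -/
theorem sum_type_bound (hs : 1 ≤ s) (hβ : 0 < β) (hβ1 : β < 1) (K : ℕ) [DecidablePred SumType] :
    ∑ c ∈ (A (K + 1)).filter SumType, wt s β c ≤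
      wt s β 2 + wt s β 3 + (∑ n ∈ A K, wt s β n) * (7 * (8 / 9) ^ s) := by
  rw [← sum_filter_add_sum_filter_not ((A (K + 1)).filter SumType) (fun c => c < 4)]
  apply add_le_add
  · calc ∑ c ∈ ((A (K + 1)).filter SumType).filter (fun c => c < 4), wt s β c
        ≤ ∑ c ∈ ({2, 3} : Finset ℕ), wt s β c := by
          apply sum_le_sum_of_subset_of_nonneg
          · intro c hc
            rw [mem_filter, mem_filter, mem_A] at hc
            rw [mem_insert, mem_singleton]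
            omega
          · exact fun c _ _ => wt_nonneg hβ c
      _ = wt s β 2 + wt s β 3 := sum_pair (by norm_num)
  · calc ∑ c ∈ ((A (K + 1)).filter SumType).filter (fun c => ¬ c < 4), wt s β c
        ≤ ∑ p ∈ A K ×ˢ Icc 1 (3 ^ K), wt s β p.1 * rho p.2 ^ s := by
          apply sum_cover _ _ (fun p : ℕ × ℕ => p.1 + p.2)
          · exact fun p _ => mul_nonneg (wt_nonneg hβ _) (pow_nonneg (rho_nonneg _) _)
          · intro c hc
            rw [mem_filter, mem_filter, mem_A] at hc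
            obtain ⟨⟨⟨h2, hK⟩, u, v, hv, hvu, huv, hcpx⟩, h4⟩ := hc
            have hcv := cpx_pos hv
            have huK : cpx u ≤ K := by omega
            refine ⟨(u, v), ?_, huv, ?_⟩
            · rw [mem_product, mem_A, mem_Icc]
              exact ⟨⟨by show 2 ≤ u; omega, huK⟩, hv, hvu.trans (le_pow (by omega) huK)⟩
            · have h5 := wt_add (s := s) hβ hβ1 hv hvu (by omega) (by rw [huv]; exact hcpx)
              rw [huv] at h5
              exact h5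
      _ = (∑ n ∈ A K, wt s β n) * ∑ v ∈ Icc 1 (3 ^ K), rho v ^ s := by
          rw [sum_product, sum_mul_sum]
      _ ≤ _ := mul_le_mul_of_nonneg_left (rho_sum hs _) (sum_nonneg fun n _ => wt_nonneg hβ n)

/-- The recursive inequality. -/
theorem sum_step (hβ : 0 < β) (K : ℕ) [DecidablePred SumType] :
    ∑ n ∈ A (K + 1), wt s β n ≤
      (∑ c ∈ (A (K + 1)).filter SumType, wt s β c) * (1 + ∑ n ∈ A K, wt s β n) := by
  classical
  have h2 : ∑ n ∈ A (K + 1), wt s β n ≤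
      ∑ p ∈ (A (K + 1)).filter SumType ×ˢ insert 1 (A K), wt s β p.1 * (if p.2 = 1 then 1 else wt s β p.2) := by
    apply sum_cover _ _ (fun p : ℕ × ℕ => p.1 * p.2)
    · intro p _
      apply mul_nonneg (wt_nonneg hβ _)
      split_ifs
      · exact zero_le_one
      · exact wt_nonneg hβ _
    · intro n hn
      have hn' := mem_A.1 hn
      rcases factor _ n le_rfl hn'.1 with h | ⟨c, m, hc, hm, hS, hcm, hcpx⟩
      · refine ⟨(n, 1), ?_, mul_one n, ?_⟩
        · rw [mem_product, mem_filter]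
          exact ⟨⟨hn, h⟩, mem_insert_self _ _⟩
        · simp
      · have hpc := cpx_pos (show 1 ≤ c by omega)
        have hpm := cpx_pos (show 1 ≤ m by omega)
        refine ⟨(c, m), ?_, hcm, ?_⟩
        · rw [mem_product, mem_filter, mem_A, mem_insert, mem_A]
          exact ⟨⟨⟨hc, by show cpx c ≤ K + 1; omega⟩, hS⟩, Or.inr ⟨hm, by show cpx m ≤ K; omega⟩⟩
        · have hm1 : ¬ m = 1 := by omega
          show wt s β n ≤ wt s β c * (if m = 1 then 1 else wt s β m)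
          rw [if_neg hm1, ← hcm, wt_mul (by rw [hcm]; exact hcpx)]
  have h3 : ∑ p ∈ (A (K + 1)).filter SumType ×ˢ insert 1 (A K), wt s β p.1 * (if p.2 = 1 then 1 else wt s β p.2) =
      (∑ c ∈ (A (K + 1)).filter SumType, wt s β c) * (1 + ∑ n ∈ A K, wt s β n) := by
    rw [sum_product]
    have h1A : 1 ∉ A K := by
      rw [mem_A]
      omega
    have h4 : ∑ y ∈ insert 1 (A K), (if y = 1 then (1 : ℝ) else wt s β y) = 1 + ∑ n ∈ A K, wt s β n := by
      rw [sum_insert h1A, if_pos rfl]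
      congr 1
      apply sum_congr rfl
      intro n hn
      rw [if_neg]
      have := (mem_A.1 hn).1
      omega
    rw [← h4, sum_mul_sum]
  rw [h3] at h2
  exact h2

/-- The weight has bounded sums. -/
theorem sum_A (hβ : 0 < β) (hβ1 : β < 1) {b B : ℝ} (hb : β ^ 3 = b) (hB0 : 0 < B) (hBb : 2 ≤ B * (1 - b))
    (hs : 1 ≤ s) (ht : (8 / 9 : ℝ) ^ s * ((1 + B) * (1 + 7 * B)) ≤ 1) (K : ℕ) : ∑ n ∈ A K, wt s β n ≤ B := by
  classical
  have hb1 : b < 1 := by
    rw [← hb]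
    exact pow_lt_one₀ hβ.le hβ1 (by norm_num)
  have hb0 : 0 < b := by
    rw [← hb]
    positivity
  induction K with
  | zero =>
    have h : A 0 = ∅ := by
      ext n
      rw [mem_A]
      simp only [notMem_empty, iff_false, not_and]
      intro h1 h2
      have := cpx_pos (show 1 ≤ n by omega)
      omega
    rw [h, sum_empty]
    exact hB0.le
  | succ K ih =>
    have h0 : 0 ≤ ∑ n ∈ A K, wt s β n := sum_nonneg fun n _ => wt_nonneg hβ n
    have h1 := sum_type_bound hs hβ hβ1 K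
    have h2 := sum_step (s := s) hβ K
    have h3 := wt_two (s := s) hβ hβ1
    have h4 : wt s β 3 = b := by rw [wt_three, hb]
    obtain ⟨e, he⟩ : ∃ e, (8 / 9 : ℝ) ^ s = e := ⟨_, rfl⟩
    rw [he] at h1 h3 ht
    have he0 : 0 < e := by rw [← he]; positivity
    have h5 : ∑ c ∈ (A (K + 1)).filter SumType, wt s β c ≤ b + e * (1 + 7 * B) := by
      refine h1.trans ?_
      rw [h4]
      have h6 : (∑ n ∈ A K, wt s β n) * (7 * e) ≤ B * (7 * e) := by gcongr
      linarith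
    refine h2.trans ?_
    calc (∑ c ∈ (A (K + 1)).filter SumType, wt s β c) * (1 + ∑ n ∈ A K, wt s β n)
        ≤ (b + e * (1 + 7 * B)) * (1 + B) := by
          apply mul_le_mul h5 (by linarith) (by linarith)
          positivity
      _ = b * (1 + B) + e * ((1 + B) * (1 + 7 * B)) := by ring
      _ ≤ b * (1 + B) + 1 := by linarith
      _ ≤ B := by nlinarith

end Pool.Agent.Lib.MP_9ca56c_nt
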